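import Pool.Agent.V11298.EC.Wind

/-!
# (p,1)-total labellings from lists, with prescribed labels

Let `G` be a graph of maximum degree at most `D`, `S` a set of vertices and `H` a subgraph of
maximum degree at most `h`.  Every labelling of `S` and of the edges of `H` by `0, …, N - 1`
extends to a (circular) `(p,1)`-total labelling of `G` in which the labels of the other vertices
come from arbitrary lists with more than `D + h (2 p - 1)` elements and every other edge avoids a
set of at most `q` forbidden labels, if
`N ≥ D + 47 + 17 r + (88 + 40 (⌊log₂ r⌋ + 4)²) log (D + 1)` with `r = 4 p + 2 h + q`.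
The edges are labelled with the theorem of `Pool.Agent.V11298.EC.Forb` on edge colourings with few
forbidden colours at every edge.
-/

set_option autoImplicit false

namespace Pool.Agent.Results.MP_b8729f_co.NearCommonLists

open Finset Pool.Agent.V11298.EC

/-- `f` (labels of the vertices) and `g` (on unordered pairs, read on the edges) form a
`(p,1)`-total labelling of `G` with the labels `0, …, N - 1` (that is, of span `N - 1`): adjacent
vertices have different labels, edges with a common endpoint have different labels, and the labels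
of a vertex and of an incident edge differ by at least `p`. -/
def IsLabelling {V : Type} (G : SimpleGraph V) (p N : ℕ) (f : V → Fin N) (g : Sym2 V → Fin N) :
    Prop :=
  (∀ u v, G.Adj u v → f u ≠ f v) ∧
    (∀ u v w, G.Adj u v → G.Adj u w → v ≠ w → g s(u, v) ≠ g s(u, w)) ∧
    ∀ u v, G.Adj u v → (p : ℤ) ≤ |((f u : ℕ) : ℤ) - ((g s(u, v) : ℕ) : ℤ)|

/-- The same with circular distance: the labels `0, …, N - 1` are placed around a circle, and the
circular distance of the labels of a vertex and of an incident edge is at least `p`, that is,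
`p ≤ |f u - g uv| ≤ N - p`. -/
def IsCircularLabelling {V : Type} (G : SimpleGraph V) (p N : ℕ) (f : V → Fin N)
    (g : Sym2 V → Fin N) : Prop :=
  IsLabelling G p N f g ∧
    ∀ u v, G.Adj u v → |((f u : ℕ) : ℤ) - ((g s(u, v) : ℕ) : ℤ)| ≤ (N : ℤ) - p

/-- greedy extension of the labels of the vertices, from lists -/
theorem vertices {V : Type} [Fintype V] [DecidableEq V] (G H : SimpleGraph V)
    [DecidableRel G.Adj] [DecidableRel H.Adj] (D h p N : ℕ) (hp : 1 ≤ p) (hpN : 2 * p ≤ N)
    (hD : ∀ v, G.degree v ≤ D) (hh : ∀ v, H.degree v ≤ h)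
    (S : Finset V) (L : V → Finset ℕ) (hLN : ∀ v, ∀ x ∈ L v, x < N)
    (hL : ∀ v, v ∉ S → D + h * (2 * p - 1) < (L v).card)
    (f₀ : V → ℕ) (g₀ : Sym2 V → ℕ) (hf : ∀ v ∈ S, f₀ v < N)
    (hg : ∀ e, g₀ e < N)
    (h1 : ∀ u ∈ S, ∀ v ∈ S, G.Adj u v → f₀ u ≠ f₀ v) :
    ∃ s : V → ℕ, (∀ v, s v < N) ∧ (∀ v ∈ S, s v = f₀ v) ∧ (∀ v, v ∉ S → s v ∈ L v) ∧
      (∀ u v, G.Adj u v → s u ≠ s v) ∧
      ∀ u, u ∉ S → ∀ v, H.Adj u v → Far N p (g₀ s(u, v)) (s u) := by
  classical
  have key : ∀ T : Finset V, ∃ s : V → ℕ, (∀ v ∈ S ∪ T, s v < N) ∧ (∀ v ∈ S, s v = f₀ v) ∧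
      (∀ v ∈ S ∪ T, v ∉ S → s v ∈ L v) ∧
      (∀ u ∈ S ∪ T, ∀ v ∈ S ∪ T, G.Adj u v → s u ≠ s v) ∧
      ∀ u ∈ S ∪ T, u ∉ S → ∀ v, H.Adj u v → Far N p (g₀ s(u, v)) (s u) := by
    intro T
    induction T using Finset.induction_on with
    | empty =>
      refine ⟨f₀, ?_, fun _ _ => rfl, ?_, ?_, ?_⟩
      · simpa using hf
      · intro u hu hu'
        exact absurd (by simpa using hu) hu'
      · simpa using h1
      · intro u hu hu'
        exact absurd (by simpa using hu) hu'
    | insert v T hv ih =>
      obtain ⟨s, hs1, hs2, hsL, hs3, hs4⟩ := ih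
      by_cases hvS : v ∈ S
      · have he : S ∪ insert v T = S ∪ T := by
          ext x
          simp only [mem_union, mem_insert]
          constructor
          · rintro (hx | rfl | hx)
            · exact Or.inl hx
            · exact Or.inl hvS
            · exact Or.inr hx
          · rintro (hx | hx)
            · exact Or.inl hx
            · exact Or.inr (Or.inr hx)
        rw [he]
        exact ⟨s, hs1, hs2, hsL, hs3, hs4⟩
      · -- a free label for `v`
        set Q := (G.neighborFinset v).image s ∪
          (H.neighborFinset v).biUnion (fun w => win N p (g₀ s(v, w))) with hQ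
        have hQc : Q.card < (L v).card := by
          refine lt_of_le_of_lt ((card_union_le _ _).trans (add_le_add card_image_le
            (card_biUnion_le.trans (sum_le_sum fun w _ => card_win N p _)))) ?_
          rw [SimpleGraph.card_neighborFinset_eq_degree, sum_const, smul_eq_mul,
            SimpleGraph.card_neighborFinset_eq_degree]
          have h5 := hD v
          have h6 := Nat.mul_le_mul_right (2 * p - 1) (hh v)
          have h7 := hL v hvS
          omega
        obtain ⟨x, hxL, hxQ⟩ := Finset.exists_mem_notMem_of_card_lt_card hQc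
        have hx : x < N := hLN v x hxL
        have hx1 : ∀ w, G.Adj v w → s w ≠ x := by
          intro w hw he
          exact hxQ (mem_union_left _ (mem_image.2 ⟨w, by simpa using hw, he⟩))
        have hx2 : ∀ w, H.Adj v w → Far N p (g₀ s(v, w)) x := by
          intro w hw
          refine far_of_notMem hp hpN (hg _) hx fun h7 => ?_
          exact hxQ (mem_union_right _ (mem_biUnion.2 ⟨w, by simpa using hw, h7⟩))
        have hmem : ∀ u, u ∈ S ∪ insert v T → u ≠ v → u ∈ S ∪ T := by
          intro u hu hne
          simp only [mem_union, mem_insert] at hu ⊢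
          rcases hu with hu | hu | hu
          · exact Or.inl hu
          · exact absurd hu hne
          · exact Or.inr hu
        refine ⟨Function.update s v x, ?_, ?_, ?_, ?_, ?_⟩
        · intro u hu
          by_cases huv : u = v
          · subst huv; simpa using hx
          · rw [Function.update_of_ne huv]
            exact hs1 u (hmem u hu huv)
        · intro u hu
          have huv : u ≠ v := fun he => hvS (he ▸ hu)
          rw [Function.update_of_ne huv]
          exact hs2 u hu
        · intro u hu huS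
          by_cases huv : u = v
          · subst huv
            rw [Function.update_self]
            exact hxL
          · rw [Function.update_of_ne huv]
            exact hsL u (hmem u hu huv) huS
        · intro u hu w hw huw
          by_cases huv : u = v
          · subst huv
            have hwu : w ≠ u := huw.ne'
            rw [Function.update_self, Function.update_of_ne hwu]
            exact (hx1 w huw).symm
          · by_cases hwv : w = v
            · subst hwv
              rw [Function.update_self, Function.update_of_ne huv]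
              exact hx1 u huw.symm
            · rw [Function.update_of_ne huv, Function.update_of_ne hwv]
              exact hs3 u (hmem u hu huv) w (hmem w hw hwv) huw
        · intro u hu huS w huw
          by_cases huv : u = v
          · subst huv
            rw [Function.update_self]
            exact hx2 w huw
          · rw [Function.update_of_ne huv]
            exact hs4 u (hmem u hu huv) huS w huw
  obtain ⟨s, hs1, hs2, hsL, hs3, hs4⟩ := key univ
  exact ⟨s, fun v => hs1 v (by simp), hs2, fun v => hsL v (by simp),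
    fun u v => hs3 u (by simp) v (by simp), fun u hu v => hs4 u (by simp) hu v⟩

theorem far_symm {N p x y : ℕ} (h : Far N p x y) : Far N p y x := by
  unfold Far at *
  rwa [abs_sub_comm]

/-- **Labels from lists, with prescribed labels.**  Let `G` be a finite simple graph in which every
vertex has at most `D` neighbours, `H` a subgraph (its edges are the precoloured edges) in which
every vertex has at most `h` neighbours, `S` any set of vertices (the precoloured vertices),
`p ≥ 1`, `q ≥ 0`, `r = 4 p + 2 h + q` and
`N ≥ D + 47 + 17 r + (88 + 40 (⌊log₂ r⌋ + 4)²) log (D + 1)`.  Let `f₀` and `g₀` take labels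
`0, …, N - 1` such that vertices of `S` which are adjacent in `G` have different labels, edges of
`H` with a common endpoint have different labels, and the labels of a vertex in `S` and of an edge
of `H` at this vertex differ by at least `p`.  Let every vertex `v` outside `S` have any list `L v`
of more than `D + h (2 p - 1)` labels, and every edge `e` of `G` outside `H` any set `F e` of at
most `q` forbidden labels.  Then `G` has a `(p,1)`-total labelling with the labels `0, …, N - 1`
which agrees with `f₀` on `S` and with `g₀` on the edges of `H`, in which the label of every other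
vertex is in its list and no other edge has a forbidden label; if the prescribed labels of incident
vertices and edges are at distance at least `p` even around the circle, then it can be taken
circular. -/
theorem result {V : Type} [Fintype V] (G H : SimpleGraph V) (_hHG : H ≤ G) (D h p q N : ℕ)
    (hp : 1 ≤ p) (hD : ∀ v, (G.neighborSet v).ncard ≤ D) (hh : ∀ v, (H.neighborSet v).ncard ≤ h)
    (hN : (D : ℝ) + 47 + 17 * (4 * p + 2 * h + q) +
      (88 + 40 * (Nat.log 2 (4 * p + 2 * h + q) + 4) ^ 2) * Real.log (D + 1) ≤ N)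
    (S : Set V) (f₀ : V → Fin N) (g₀ : Sym2 V → Fin N)
    (h1 : ∀ u ∈ S, ∀ v ∈ S, G.Adj u v → f₀ u ≠ f₀ v)
    (h2 : ∀ u v w, H.Adj u v → H.Adj u w → v ≠ w → g₀ s(u, v) ≠ g₀ s(u, w))
    (h3 : ∀ u ∈ S, ∀ v, H.Adj u v →
      (p : ℤ) ≤ |((f₀ u : ℕ) : ℤ) - ((g₀ s(u, v) : ℕ) : ℤ)|)
    (L : V → Finset (Fin N)) (hL : ∀ v, v ∉ S → D + h * (2 * p - 1) < (L v).card)
    (F : Sym2 V → Finset (Fin N)) (hF : ∀ e ∈ G.edgeSet, e ∉ H.edgeSet → (F e).card ≤ q) :
    ∃ (f : V → Fin N) (g : Sym2 V → Fin N), (∀ v ∈ S, f v = f₀ v) ∧ (∀ v, v ∉ S → f v ∈ L v) ∧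
      (∀ u v, H.Adj u v → g s(u, v) = g₀ s(u, v)) ∧
      (∀ e ∈ G.edgeSet, e ∉ H.edgeSet → g e ∉ F e) ∧ IsLabelling G p N f g ∧
      ((∀ u ∈ S, ∀ v, H.Adj u v →
        |((f₀ u : ℕ) : ℤ) - ((g₀ s(u, v) : ℕ) : ℤ)| ≤ (N : ℤ) - p) →
        IsCircularLabelling G p N f g) := by
  classical
  have hdeg : ∀ (K : SimpleGraph V) (d : ℕ), (∀ v, (K.neighborSet v).ncard ≤ d) →
      ∀ v, K.degree v ≤ d := by
    intro K d hK v
    have h1 := hK v
    rwa [← SimpleGraph.coe_neighborFinset, Set.ncard_coe_finset] at h1
  have hDG := hdeg G D hD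
  have hhH := hdeg H h hh
  have hlog0 : 0 ≤ Real.log ((D : ℝ) + 1) :=
    Real.log_nonneg (by have : (0 : ℝ) ≤ D := Nat.cast_nonneg _; linarith)
  have hpN : 4 * p < N := by
    have h4 : ((4 * p : ℕ) : ℝ) < N := by
      push_cast
      have e1 : (0 : ℝ) ≤ (88 + 40 * (((Nat.log 2 (4 * p + 2 * h + q) : ℕ) : ℝ) + 4) ^ 2) *
          Real.log (D + 1) := by positivity
      have e2 : (0 : ℝ) ≤ D := Nat.cast_nonneg _
      have e3 : (0 : ℝ) ≤ h := Nat.cast_nonneg _
      have e4 : (0 : ℝ) ≤ q := Nat.cast_nonneg _
      have e5 : (0 : ℝ) ≤ p := Nat.cast_nonneg _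
      linarith
    exact_mod_cast h4
  obtain ⟨s, hs1, hs2, hsL, hs3, hs4⟩ := vertices G H D h p N hp (by omega) hDG hhH S.toFinset
    (fun v => (L v).image Fin.val) (fun v x hx => by
      obtain ⟨y, _, rfl⟩ := mem_image.1 hx
      exact y.2)
    (fun v hv => by
      rw [card_image_of_injective _ Fin.val_injective]
      exact hL v (by simpa using hv))
    (fun v => (f₀ v : ℕ)) (fun e => (g₀ e : ℕ)) (fun v _ => (f₀ v).2) (fun e => (g₀ e).2)
    (fun u hu v hv huv he => h1 u (by simpa using hu) v (by simpa using hv) huv (Fin.ext he))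
  -- the forbidden labels of an edge
  let A : V → Finset ℕ := fun v => win N p (s v) ∪ (H.neighborFinset v).image fun w => (g₀ s(v, w) : ℕ)
  have hA : ∀ v, (A v).card ≤ 2 * p - 1 + h := by
    intro v
    refine (card_union_le _ _).trans (add_le_add (card_win N p _) (card_image_le.trans ?_))
    rw [SimpleGraph.card_neighborFinset_eq_degree]
    exact hhH v
  let B : Sym2 V → Finset ℕ := fun e =>
    Sym2.lift ⟨fun u v => A u ∪ A v, fun u v => union_comm _ _⟩ e ∪ (F e).image Fin.val
  have hB : ∀ u v, B s(u, v) = A u ∪ A v ∪ (F s(u, v)).image Fin.val := fun u v => by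
    simp only [B, Sym2.lift_mk]
  obtain ⟨c, hc1, hc2⟩ := forb (G \ H) D (4 * p + 2 * h + q) N (by omega)
    (fun v => (SimpleGraph.degree_le_of_le sdiff_le).trans (hDG v)) B (fun e he => by
      induction e using Sym2.ind with
      | _ u v =>
      rw [hB]
      rw [SimpleGraph.edgeSet_sdiff] at he
      refine (card_union_le _ _).trans ?_
      have h4 := (card_union_le (A u) (A v)).trans (add_le_add (hA u) (hA v))
      have h5 : ((F s(u, v)).image Fin.val).card ≤ q :=
        card_image_le.trans (hF _ he.1 he.2)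
      omega) (by push_cast; exact hN)
  let c' : Sym2 V → ℕ := fun e => if e ∈ H.edgeSet then (g₀ e : ℕ) else
    if e ∈ G.edgeSet then c e else 0
  have hc'H : ∀ u v, H.Adj u v → c' s(u, v) = g₀ s(u, v) := by
    intro u v h4
    have : s(u, v) ∈ H.edgeSet := h4
    simp only [c', if_pos this]
  have hc'G : ∀ u v, G.Adj u v → ¬ H.Adj u v → c' s(u, v) = c s(u, v) := by
    intro u v h4 h5
    have h6 : s(u, v) ∈ G.edgeSet := h4
    have h7 : s(u, v) ∉ H.edgeSet := h5
    simp only [c', if_neg h7, if_pos h6]
  have hc'N : ∀ e, c' e < N := by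
    intro e
    by_cases h4 : e ∈ H.edgeSet
    · simp only [c', if_pos h4]
      exact (g₀ e).2
    · by_cases h5 : e ∈ G.edgeSet
      · simp only [c', if_neg h4, if_pos h5]
        exact (hc1 e (by
          rw [SimpleGraph.edgeSet_sdiff]
          exact ⟨h5, h4⟩)).1
      · simp only [c', if_neg h4, if_neg h5]
        omega
  have havoid : ∀ u v, G.Adj u v → ¬ H.Adj u v → Far N p (s u) (c s(u, v)) ∧
      (∀ w, H.Adj u w → c s(u, v) ≠ g₀ s(u, w)) ∧ c s(u, v) ∉ (F s(u, v)).image Fin.val := by
    intro u v h4 h5
    have h45 : s(u, v) ∈ (G \ H).edgeSet := by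
      rw [SimpleGraph.edgeSet_sdiff]
      exact ⟨h4, h5⟩
    obtain ⟨h6, h7⟩ := hc1 s(u, v) h45
    rw [hB, mem_union, mem_union, not_or, not_or] at h7
    obtain ⟨⟨h8, _⟩, h9⟩ := h7
    have h8' : c s(u, v) ∉ win N p (s u) ∧
        c s(u, v) ∉ (H.neighborFinset u).image fun w => (g₀ s(u, w) : ℕ) := by
      rw [← not_or, ← mem_union]
      exact h8
    refine ⟨far_of_notMem hp (by omega) (hs1 u) h6 h8'.1, fun w hw he => ?_, h9⟩
    exact h8'.2 (mem_image.2 ⟨w, by simpa using hw, he.symm⟩)
  -- the distances
  have hfar : ∀ u v, G.Adj u v → (u ∈ S ∧ H.Adj u v) ∨ Far N p (s u) (c' s(u, v)) := by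
    intro u v huv
    by_cases hv : H.Adj u v
    · by_cases hu : u ∈ S
      · exact Or.inl ⟨hu, hv⟩
      · right
        rw [hc'H u v hv]
        exact far_symm (hs4 u (by simpa using hu) v hv)
    · right
      rw [hc'G u v huv hv]
      exact (havoid u v huv hv).1
  have hSs : ∀ v ∈ S, s v = f₀ v := fun v hv => hs2 v (by simpa using hv)
  have hlab : IsLabelling G p N (fun v => ⟨s v, hs1 v⟩) (fun e => ⟨c' e, hc'N e⟩) := by
    refine ⟨?_, ?_, ?_⟩
    · intro u v huv he
      exact hs3 u v huv (congrArg Fin.val he)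
    · intro u v w huv huw hvw he
      have he' : c' s(u, v) = c' s(u, w) := congrArg Fin.val he
      by_cases hv : H.Adj u v
      · by_cases hw : H.Adj u w
        · rw [hc'H u v hv, hc'H u w hw] at he'
          exact h2 u v w hv hw hvw (Fin.ext he')
        · rw [hc'H u v hv, hc'G u w huw hw] at he'
          exact (havoid u w huw hw).2.1 v hv he'.symm
      · by_cases hw : H.Adj u w
        · rw [hc'G u v huv hv, hc'H u w hw] at he'
          exact (havoid u v huv hv).2.1 w hw he'
        · rw [hc'G u v huv hv, hc'G u w huw hw] at he'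
          exact hc2 u v w ((SimpleGraph.sdiff_adj _ _ _ _).2 ⟨huv, hv⟩)
            ((SimpleGraph.sdiff_adj _ _ _ _).2 ⟨huw, hw⟩) hvw he'
    · intro u v huv
      rcases hfar u v huv with ⟨hu, hv⟩ | hf
      · have h5 := h3 u hu v hv
        show (p : ℤ) ≤ |((s u : ℕ) : ℤ) - ((c' s(u, v) : ℕ) : ℤ)|
        rw [hSs u hu, hc'H u v hv]
        exact h5
      · exact hf.1
  refine ⟨fun v => ⟨s v, hs1 v⟩, fun e => ⟨c' e, hc'N e⟩, ?_, ?_, ?_, ?_, hlab, ?_⟩
  · intro v hv
    exact Fin.ext (hSs v hv)
  · intro v hv
    obtain ⟨y, hy, hy'⟩ := mem_image.1 (hsL v (by simpa using hv))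
    have h8 : (⟨s v, hs1 v⟩ : Fin N) = y := Fin.ext hy'.symm
    show (⟨s v, hs1 v⟩ : Fin N) ∈ L v
    rw [h8]
    exact hy
  · intro u v huv
    exact Fin.ext (hc'H u v huv)
  · intro e he heH hmem
    induction e using Sym2.ind with
    | _ u v =>
    refine (havoid u v he heH).2.2 (mem_image.2 ⟨_, hmem, ?_⟩)
    exact hc'G u v he heH
  · intro h4
    refine ⟨hlab, ?_⟩
    intro u v huv
    rcases hfar u v huv with ⟨hu, hv⟩ | hf
    · have h5 := h4 u hu v hv
      show |((s u : ℕ) : ℤ) - ((c' s(u, v) : ℕ) : ℤ)| ≤ (N : ℤ) - p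
      rw [hSs u hu, hc'H u v hv]
      exact h5
    · exact hf.2

end Pool.Agent.Results.MP_b8729f_co.NearCommonLists
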