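import Pool.Agent.V11298.EC.Wind

/-!
# (p,1)-total labellings with prescribed labels

Let `G` be a graph of maximum degree at most `D`, let `S` be any set of vertices and `H` a
subgraph of `G` of maximum degree at most `h`.  Every precolouring of the vertices in `S` and of
the edges of `H` with labels `0, …, N - 1` extends to a (circular) `(p,1)`-total labelling of `G`
with the same labels, if `N ≥ D + (132 + 64 h) p + (1048 + 480 h) log (D + 1)`.
-/

set_option autoImplicit false

namespace Pool.Agent.Results.MP_b8729f_co.PrescribedLabels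

open Finset Pool.Agent.V11298.EC

/-- `f` (labels of the vertices) and `g` (on unordered pairs, read on the edges) form a
`(p,1)`-total labelling of `G` with the labels `0, …, N - 1` (that is, of span `N - 1`): adjacent
vertices have different labels, edges with a common endpoint have different labels, and the labels
of a vertex and of an incident edge differ by at least `p`. -/
def IsLabelling {V : Type} (G : SimpleGraph V) (p N : ℕ) (f : V → Fin N) (g : Sym2 V → Fin N) :
    Prop :=
  (∀ u v, G.Adj u v → f u ≠ f v) ∧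
    (∀ u v w, G.Adj u v → G.Adj u w → v ≠ w → g s(u, v) ≠ g s(u, w)) ∧
    ∀ u v, G.Adj u v → (p : ℤ) ≤ |((f u : ℕ) : ℤ) - ((g s(u, v) : ℕ) : ℤ)|

/-- The same with circular distance: the labels `0, …, N - 1` are placed around a circle, and the
circular distance of the labels of a vertex and of an incident edge is at least `p`, that is,
`p ≤ |f u - g uv| ≤ N - p`. -/
def IsCircularLabelling {V : Type} (G : SimpleGraph V) (p N : ℕ) (f : V → Fin N)
    (g : Sym2 V → Fin N) : Prop :=
  IsLabelling G p N f g ∧
    ∀ u v, G.Adj u v → |((f u : ℕ) : ℤ) - ((g s(u, v) : ℕ) : ℤ)| ≤ (N : ℤ) - p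

/-- greedy extension of the labels of the vertices -/
theorem vertices {V : Type} [Fintype V] [DecidableEq V] (G H : SimpleGraph V)
    [DecidableRel G.Adj] [DecidableRel H.Adj] (D h p N : ℕ) (hp : 1 ≤ p) (hpN : 2 * p ≤ N)
    (hD : ∀ v, G.degree v ≤ D) (hh : ∀ v, H.degree v ≤ h) (hN : D + h * (2 * p - 1) < N)
    (S : Finset V) (f₀ : V → ℕ) (g₀ : Sym2 V → ℕ) (hf : ∀ v ∈ S, f₀ v < N)
    (hg : ∀ e, g₀ e < N)
    (h1 : ∀ u ∈ S, ∀ v ∈ S, G.Adj u v → f₀ u ≠ f₀ v) :
    ∃ s : V → ℕ, (∀ v, s v < N) ∧ (∀ v ∈ S, s v = f₀ v) ∧ (∀ u v, G.Adj u v → s u ≠ s v) ∧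
      ∀ u, u ∉ S → ∀ v, H.Adj u v → Far N p (g₀ s(u, v)) (s u) := by
  classical
  have key : ∀ T : Finset V, ∃ s : V → ℕ, (∀ v ∈ S ∪ T, s v < N) ∧ (∀ v ∈ S, s v = f₀ v) ∧
      (∀ u ∈ S ∪ T, ∀ v ∈ S ∪ T, G.Adj u v → s u ≠ s v) ∧
      ∀ u ∈ S ∪ T, u ∉ S → ∀ v, H.Adj u v → Far N p (g₀ s(u, v)) (s u) := by
    intro T
    induction T using Finset.induction_on with
    | empty =>
      refine ⟨f₀, ?_, fun _ _ => rfl, ?_, ?_⟩
      · simpa using hf
      · simpa using h1
      · intro u hu hu'
        exact absurd (by simpa using hu) hu'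
    | insert v T hv ih =>
      obtain ⟨s, hs1, hs2, hs3, hs4⟩ := ih
      by_cases hvS : v ∈ S
      · have he : S ∪ insert v T = S ∪ T := by
          ext x
          simp only [mem_union, mem_insert]
          constructor
          · rintro (hx | rfl | hx)
            · exact Or.inl hx
            · exact Or.inl hvS
            · exact Or.inr hx
          · rintro (hx | hx)
            · exact Or.inl hx
            · exact Or.inr (Or.inr hx)
        rw [he]
        exact ⟨s, hs1, hs2, hs3, hs4⟩
      · -- a free label for `v`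
        set Q := (G.neighborFinset v).image s ∪
          (H.neighborFinset v).biUnion (fun w => win N p (g₀ s(v, w))) with hQ
        have hQc : Q.card < (range N).card := by
          rw [card_range]
          refine lt_of_le_of_lt ((card_union_le _ _).trans (add_le_add card_image_le
            (card_biUnion_le.trans (sum_le_sum fun w _ => card_win N p _)))) ?_
          rw [SimpleGraph.card_neighborFinset_eq_degree, sum_const, smul_eq_mul,
            SimpleGraph.card_neighborFinset_eq_degree]
          have h5 := hD v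
          have h6 := Nat.mul_le_mul_right (2 * p - 1) (hh v)
          omega
        obtain ⟨x, hx, hxQ⟩ := Finset.exists_mem_notMem_of_card_lt_card hQc
        rw [mem_range] at hx
        have hx1 : ∀ w, G.Adj v w → s w ≠ x := by
          intro w hw he
          exact hxQ (mem_union_left _ (mem_image.2 ⟨w, by simpa using hw, he⟩))
        have hx2 : ∀ w, H.Adj v w → Far N p (g₀ s(v, w)) x := by
          intro w hw
          refine far_of_notMem hp hpN (hg _) hx fun h7 => ?_
          exact hxQ (mem_union_right _ (mem_biUnion.2 ⟨w, by simpa using hw, h7⟩))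
        have hmem : ∀ u, u ∈ S ∪ insert v T → u ≠ v → u ∈ S ∪ T := by
          intro u hu hne
          simp only [mem_union, mem_insert] at hu ⊢
          rcases hu with hu | hu | hu
          · exact Or.inl hu
          · exact absurd hu hne
          · exact Or.inr hu
        refine ⟨Function.update s v x, ?_, ?_, ?_, ?_⟩
        · intro u hu
          by_cases huv : u = v
          · subst huv; simpa using hx
          · rw [Function.update_of_ne huv]
            exact hs1 u (hmem u hu huv)
        · intro u hu
          have huv : u ≠ v := fun he => hvS (he ▸ hu)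
          rw [Function.update_of_ne huv]
          exact hs2 u hu
        · intro u hu w hw huw
          by_cases huv : u = v
          · subst huv
            have hwu : w ≠ u := huw.ne'
            rw [Function.update_self, Function.update_of_ne hwu]
            exact (hx1 w huw).symm
          · by_cases hwv : w = v
            · subst hwv
              rw [Function.update_self, Function.update_of_ne huv]
              exact hx1 u huw.symm
            · rw [Function.update_of_ne huv, Function.update_of_ne hwv]
              exact hs3 u (hmem u hu huv) w (hmem w hw hwv) huw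
        · intro u hu huS w huw
          by_cases huv : u = v
          · subst huv
            rw [Function.update_self]
            exact hx2 w huw
          · rw [Function.update_of_ne huv]
            exact hs4 u (hmem u hu huv) huS w huw
  obtain ⟨s, hs1, hs2, hs3, hs4⟩ := key univ
  exact ⟨s, fun v => hs1 v (by simp), hs2, fun u v => hs3 u (by simp) v (by simp),
    fun u hu v => hs4 u (by simp) hu v⟩

theorem far_symm {N p x y : ℕ} (h : Far N p x y) : Far N p y x := by
  unfold Far at *
  rwa [abs_sub_comm]

/-- **Prescribed labels.**  Let `G` be a finite simple graph in which every vertex has at most `D`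
neighbours, `H` a subgraph (its edges are the precoloured edges) in which every vertex has at most
`h` neighbours, `S` any set of vertices (the precoloured vertices), `p ≥ 1` and
`N ≥ D + (132 + 64 h) p + (1048 + 480 h) log (D + 1)`.  Let `f₀` and `g₀` take labels
`0, …, N - 1` such that vertices of `S` which are adjacent in `G` have different labels and edges
of `H` with a common endpoint have different labels.

* If the label of every vertex in `S` differs by at least `p` from the labels of the edges of `H`
  at this vertex, then `G` has a `(p,1)`-total labelling with the labels `0, …, N - 1` which agrees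
  with `f₀` on `S` and with `g₀` on the edges of `H`.
* If these distances are at least `p` even around the circle, then there is such a labelling which
  is circular. -/
theorem result {V : Type} [Fintype V] (G H : SimpleGraph V) (_hHG : H ≤ G) (D h p N : ℕ)
    (hp : 1 ≤ p) (hD : ∀ v, (G.neighborSet v).ncard ≤ D) (hh : ∀ v, (H.neighborSet v).ncard ≤ h)
    (hN : (D : ℝ) + (132 + 64 * h) * p + (1048 + 480 * h) * Real.log (D + 1) ≤ N)
    (S : Set V) (f₀ : V → Fin N) (g₀ : Sym2 V → Fin N)
    (h1 : ∀ u ∈ S, ∀ v ∈ S, G.Adj u v → f₀ u ≠ f₀ v)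
    (h2 : ∀ u v w, H.Adj u v → H.Adj u w → v ≠ w → g₀ s(u, v) ≠ g₀ s(u, w))
    (h3 : ∀ u ∈ S, ∀ v, H.Adj u v →
      (p : ℤ) ≤ |((f₀ u : ℕ) : ℤ) - ((g₀ s(u, v) : ℕ) : ℤ)|) :
    ∃ (f : V → Fin N) (g : Sym2 V → Fin N), (∀ v ∈ S, f v = f₀ v) ∧
      (∀ u v, H.Adj u v → g s(u, v) = g₀ s(u, v)) ∧ IsLabelling G p N f g ∧
      ((∀ u ∈ S, ∀ v, H.Adj u v →
        |((f₀ u : ℕ) : ℤ) - ((g₀ s(u, v) : ℕ) : ℤ)| ≤ (N : ℤ) - p) →
        IsCircularLabelling G p N f g) := by
  classical
  have hdeg : ∀ (K : SimpleGraph V) (d : ℕ), (∀ v, (K.neighborSet v).ncard ≤ d) →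
      ∀ v, K.degree v ≤ d := by
    intro K d hK v
    have h1 := hK v
    rwa [← SimpleGraph.coe_neighborFinset, Set.ncard_coe_finset] at h1
  have hDG := hdeg G D hD
  have hhH := hdeg H h hh
  have hlog0 : 0 ≤ Real.log ((D : ℝ) + 1) :=
    Real.log_nonneg (by have : (0 : ℝ) ≤ D := Nat.cast_nonneg _; linarith)
  have hpr : (1 : ℝ) ≤ p := by exact_mod_cast hp
  have hhr : (0 : ℝ) ≤ h := Nat.cast_nonneg _
  have hhp : (0 : ℝ) ≤ h * (p - 1) := mul_nonneg hhr (by linarith)
  have hhL : (0 : ℝ) ≤ h * Real.log ((D : ℝ) + 1) := mul_nonneg hhr hlog0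
  have hpN : 2 * p + (D + h * (2 * p)) < N := by
    have h4 : ((2 * p + (D + h * (2 * p)) : ℕ) : ℝ) < N := by
      push_cast
      nlinarith
    exact_mod_cast h4
  have hNlt : D + h * (2 * p - 1) < N := by
    have : h * (2 * p - 1) ≤ h * (2 * p) := Nat.mul_le_mul_left _ (by omega)
    omega
  obtain ⟨s, hs1, hs2, hs3, hs4⟩ := vertices G H D h p N hp (by omega) hDG hhH hNlt S.toFinset
    (fun v => (f₀ v : ℕ)) (fun e => (g₀ e : ℕ)) (fun v _ => (f₀ v).2) (fun e => (g₀ e).2)
    (fun u hu v hv huv he => h1 u (by simpa using hu) v (by simpa using hv) huv (Fin.ext he))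
  obtain ⟨c, hc1, hc2, hc3⟩ := wind (G \ H) D h p N hp
    (fun v => (SimpleGraph.degree_le_of_le sdiff_le).trans (hDG v)) s hs1
    (fun v => (H.neighborFinset v).image fun w => (g₀ s(v, w) : ℕ))
    (fun v => card_image_le.trans
      (by rw [SimpleGraph.card_neighborFinset_eq_degree]; exact hhH v)) hN
  let c' : Sym2 V → ℕ := fun e => if e ∈ H.edgeSet then (g₀ e : ℕ) else
    if e ∈ G.edgeSet then c e else 0
  have hc'H : ∀ u v, H.Adj u v → c' s(u, v) = g₀ s(u, v) := by
    intro u v h4
    have : s(u, v) ∈ H.edgeSet := h4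
    simp only [c', if_pos this]
  have hc'G : ∀ u v, G.Adj u v → ¬ H.Adj u v → c' s(u, v) = c s(u, v) := by
    intro u v h4 h5
    have h6 : s(u, v) ∈ G.edgeSet := h4
    have h7 : s(u, v) ∉ H.edgeSet := h5
    simp only [c', if_neg h7, if_pos h6]
  have hc'N : ∀ e, c' e < N := by
    intro e
    by_cases h4 : e ∈ H.edgeSet
    · simp only [c', if_pos h4]
      exact (g₀ e).2
    · by_cases h5 : e ∈ G.edgeSet
      · simp only [c', if_neg h4, if_pos h5]
        exact hc1 e (by
          rw [SimpleGraph.edgeSet_sdiff]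
          exact ⟨h5, h4⟩)
      · simp only [c', if_neg h4, if_neg h5]
        omega
  have havoid : ∀ u v, G.Adj u v → ¬ H.Adj u v → Far N p (s u) (c s(u, v)) ∧
      ∀ w, H.Adj u w → c s(u, v) ≠ g₀ s(u, w) := by
    intro u v h4 h5
    obtain ⟨h6, h7⟩ := hc2 u v ((SimpleGraph.sdiff_adj _ _ _ _).2 ⟨h4, h5⟩)
    exact ⟨h6, fun w hw he => h7 (mem_image.2 ⟨w, by simpa using hw, he.symm⟩)⟩
  -- the distances
  have hfar : ∀ u v, G.Adj u v → (u ∈ S ∧ H.Adj u v) ∨ Far N p (s u) (c' s(u, v)) := by
    intro u v huv
    by_cases hv : H.Adj u v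
    · by_cases hu : u ∈ S
      · exact Or.inl ⟨hu, hv⟩
      · right
        rw [hc'H u v hv]
        exact far_symm (hs4 u (by simpa using hu) v hv)
    · right
      rw [hc'G u v huv hv]
      exact (havoid u v huv hv).1
  have hSs : ∀ v ∈ S, s v = f₀ v := fun v hv => hs2 v (by simpa using hv)
  have hlab : IsLabelling G p N (fun v => ⟨s v, hs1 v⟩) (fun e => ⟨c' e, hc'N e⟩) := by
    refine ⟨?_, ?_, ?_⟩
    · intro u v huv he
      exact hs3 u v huv (congrArg Fin.val he)
    · intro u v w huv huw hvw he
      have he' : c' s(u, v) = c' s(u, w) := congrArg Fin.val he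
      by_cases hv : H.Adj u v
      · by_cases hw : H.Adj u w
        · rw [hc'H u v hv, hc'H u w hw] at he'
          exact h2 u v w hv hw hvw (Fin.ext he')
        · rw [hc'H u v hv, hc'G u w huw hw] at he'
          exact (havoid u w huw hw).2 v hv he'.symm
      · by_cases hw : H.Adj u w
        · rw [hc'G u v huv hv, hc'H u w hw] at he'
          exact (havoid u v huv hv).2 w hw he'
        · rw [hc'G u v huv hv, hc'G u w huw hw] at he'
          exact hc3 u v w ((SimpleGraph.sdiff_adj _ _ _ _).2 ⟨huv, hv⟩)
            ((SimpleGraph.sdiff_adj _ _ _ _).2 ⟨huw, hw⟩) hvw he'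
    · intro u v huv
      rcases hfar u v huv with ⟨hu, hv⟩ | hf
      · have h5 := h3 u hu v hv
        show (p : ℤ) ≤ |((s u : ℕ) : ℤ) - ((c' s(u, v) : ℕ) : ℤ)|
        rw [hSs u hu, hc'H u v hv]
        exact h5
      · exact hf.1
  refine ⟨fun v => ⟨s v, hs1 v⟩, fun e => ⟨c' e, hc'N e⟩, ?_, ?_, hlab, ?_⟩
  · intro v hv
    exact Fin.ext (hSs v hv)
  · intro u v huv
    exact Fin.ext (hc'H u v huv)
  · intro h4
    refine ⟨hlab, ?_⟩
    intro u v huv
    rcases hfar u v huv with ⟨hu, hv⟩ | hf
    · have h5 := h4 u hu v hv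
      show |((s u : ℕ) : ℤ) - ((c' s(u, v) : ℕ) : ℤ)| ≤ (N : ℤ) - p
      rw [hSs u hu, hc'H u v hv]
      exact h5
    · exact hf.2

end Pool.Agent.Results.MP_b8729f_co.PrescribedLabels
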